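import Pool.Agent.Q292.LC.Stm7
import Pool.Agent.Q257.LC.LapD
import Pool.Agent.Q257.LC.KerU
import Pool.Agent.Q151.LC.Con2
import Pool.Agent.Q151.LC.Nea
import Pool.Agent.Q187.LC.Tch
import Pool.Agent.Q68.LC.Bas2

/-!
# Project LC: `S_LAM`, the damaged set is sparse in boxes and the resolvent form is small
-/

set_option autoImplicit false

namespace Run7.h576.LC

open Finset Equiv Matrix Q292.LC
open Pool.Agent.Q257.LC (natAbs_le_val td_comm td_self td_tri mem_bal bal_mono box_sub card_bal_ge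
  PP_nonneg cc_nonneg)

section pieces

variable {d L : ℕ} [NeZero L]

/-- the eighth root of a natural number -/
theorem eighth (K : ℕ) (hK : 1 ≤ K) : ∃ t : ℝ, 1 ≤ t ∧ t ^ 8 = K ∧ t ^ 4 = Real.sqrt K := by
  refine ⟨(K : ℝ) ^ ((8 : ℝ)⁻¹), ?_, ?_, ?_⟩
  · exact Real.one_le_rpow (by exact_mod_cast hK) (by norm_num)
  · have := Real.rpow_inv_natCast_pow (x := (K : ℝ)) (n := 8) (Nat.cast_nonneg K) (by norm_num)
    exact_mod_cast this
  · rw [Real.sqrt_eq_rpow, ← Real.rpow_natCast, ← Real.rpow_mul (Nat.cast_nonneg K)]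
    congr 1
    norm_num

/-- Points of a sparse set in a large ball. -/
theorem count_ball (hCNT : S_CNT) (hd : 1 ≤ d) (hL : 3 ≤ L) (S : Finset (Fin d → ZMod L))
    {r₁ R lam Z : ℕ} {t C' : ℝ} (hS : ∀ v, (S ∩ bal v r₁).card ≤ lam) (hlam : lam ≤ Z)
    (hr₁ : d ≤ r₁) (ht : 1 ≤ t) (h9 : t ^ 9 ≤ (2 * (r₁ : ℝ)) ^ d) (hr2 : (r₁ : ℝ) ≤ t ^ 4 * Z)
    (hC' : 0 ≤ C') (hR : (R : ℝ) ≤ C' * (t ^ 4 * Z)) (z : Fin d → ZMod L) :
    ((S ∩ bal z R).card : ℝ) ≤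
      (2 * (4 * d * C' + 3)) ^ d * (Z : ℝ) ^ (d + 1) * (t ^ (4 * d) / t ^ 9) := by
  have hdr : (1 : ℝ) ≤ d := by exact_mod_cast hd
  have ht0 : 0 < t := by linarith
  have hr₁0 : (0 : ℝ) < r₁ := by
    have : 0 < r₁ := by omega
    exact_mod_cast this
  have h1 := hCNT d L hd hL S r₁ R lam hr₁ hS z
  have hm1 : 1 ≤ r₁ / d := (Nat.one_le_div_iff (by omega)).2 hr₁
  have hm2 : (r₁ : ℝ) ≤ 2 * d * ((r₁ / d : ℕ) : ℝ) := by
    have h2 : r₁ < d * (r₁ / d + 1) := Nat.lt_mul_div_succ r₁ (by omega)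
    have h3 : d * (r₁ / d + 1) ≤ 2 * d * (r₁ / d) := by nlinarith
    exact_mod_cast (h2.trans_le h3).le
  have hm0 : (0 : ℝ) < ((r₁ / d : ℕ) : ℝ) := by exact_mod_cast hm1
  have hq : ((R / (r₁ / d) : ℕ) : ℝ) ≤ 2 * d * R / r₁ := by
    refine Nat.cast_div_le.trans ?_
    rw [div_le_div_iff₀ hm0 hr₁0]
    have := mul_le_mul_of_nonneg_left hm2 (Nat.cast_nonneg (α := ℝ) R)
    linarith
  have hbase : (2 * ((R / (r₁ / d) : ℕ) : ℝ) + 3) ≤ (4 * d * C' + 3) * (t ^ 4 * Z) / r₁ := by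
    rw [le_div_iff₀ hr₁0]
    have h4 : ((R / (r₁ / d) : ℕ) : ℝ) * r₁ ≤ 2 * d * R := by
      rwa [le_div_iff₀ hr₁0] at hq
    have h5 : 4 * (d : ℝ) * R ≤ 4 * d * (C' * (t ^ 4 * Z)) :=
      mul_le_mul_of_nonneg_left hR (by positivity)
    linarith
  have hpow : (2 * ((R / (r₁ / d) : ℕ) : ℝ) + 3) ^ d ≤
      (2 * (4 * d * C' + 3)) ^ d * (Z : ℝ) ^ d * (t ^ (4 * d) / t ^ 9) := by
    calc (2 * ((R / (r₁ / d) : ℕ) : ℝ) + 3) ^ d ≤ ((4 * d * C' + 3) * (t ^ 4 * Z) / r₁) ^ d :=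
          pow_le_pow_left₀ (by positivity) hbase d
      _ = (2 * (4 * d * C' + 3)) ^ d * (Z : ℝ) ^ d * (t ^ (4 * d) / (2 * (r₁ : ℝ)) ^ d) := by
          rw [div_pow, mul_pow, mul_pow, mul_pow, mul_pow, ← pow_mul]
          field_simp
      _ ≤ _ := by
          refine mul_le_mul_of_nonneg_left ?_ (by positivity)
          exact div_le_div_of_nonneg_left (by positivity) (by positivity) h9
  calc ((S ∩ bal z R).card : ℝ) ≤ ((lam * (2 * (R / (r₁ / d)) + 3) ^ d : ℕ) : ℝ) := by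
        exact_mod_cast h1
    _ = lam * (2 * ((R / (r₁ / d) : ℕ) : ℝ) + 3) ^ d := by push_cast; ring
    _ ≤ Z * ((2 * (4 * d * C' + 3)) ^ d * (Z : ℝ) ^ d * (t ^ (4 * d) / t ^ 9)) := by
        refine mul_le_mul (by exact_mod_cast hlam) hpow (by positivity) (by positivity)
    _ = _ := by ring

/-- Size of the damaged set in a box. -/
theorem dmg_box (hB2 : S_BAS2) (hCON2 : S_CON2) (hCNT : S_CNT) (hd : 3 ≤ d) (hL : 3 ≤ L)
    {σ : ℕ → (Fin d → ZMod L) × Fin d} (hσ : Per σ) (ω : ℕ → Bool)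
    (A : Finset (Fin d → ZMod L)) {δ ε C' τ t : ℝ} {q K lam r₁ ρ κ₀ Z r D : ℕ}
    (hδ : 0 < δ) (h2 : 2 * d * δ ≤ 1) (h3 : δ * q ≤ 2) (hτ : 0 ≤ τ) (hε : 0 < ε)
    (hZ : 1 ≤ Z) (hlam : lam ≤ Z) (hρ : ρ ≤ Z) (hr₁ : d ≤ r₁)
    (ht : 1 ≤ t) (hK : t ^ 8 = K) (hK1 : 1 ≤ K) (h9 : t ^ 9 ≤ (2 * (r₁ : ℝ)) ^ d)
    (hr2 : (r₁ : ℝ) ≤ t ^ 4 * Z)
    (hG : Gd σ q K lam r₁ ρ κ₀ ω A)
    (htail : ∀ k ≤ K * (q * ms d L), ∀ y, ∑ x ∈ univ.filter (fun x => D < td x y),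
      PP (ed ∘ σ) δ k x y ≤ τ)
    (hτA : τ * A.card ≤ 1) (hC' : 0 ≤ C')
    (hR : ((d * r + D + ρ + 1 : ℕ) : ℝ) ≤ C' * (t ^ 4 * Z)) (v : Fin d → ZMod L) :
    ((Dmg (ed ∘ σ) ω A δ ε (K * (q * ms d L)) ∩ box v r).card : ℝ) ≤
      (24 * d * ((2 * (4 * d * C' + 3)) ^ d + 1) / ε + (2 * (4 * d * C' + 3)) ^ d) *
        (Z : ℝ) ^ (d + 2) * (t ^ (4 * d) / t) := by
  classical
  have hd1 : 1 ≤ d := by omega
  have hdr : (3 : ℝ) ≤ d := by exact_mod_cast hd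
  have hδ1 : δ ≤ 1 := by nlinarith
  have ht0 : 0 < t := by linarith
  have hZr : (1 : ℝ) ≤ Z := by exact_mod_cast hZ
  obtain ⟨hG1, hG2, -⟩ := hG
  have hG1' : ∀ j < K, ∀ u, ((A.image (gp (ed ∘ σ) ω (j * (q * ms d L)))) ∩ bal u r₁).card ≤
      lam := by
    intro j hj u
    by_contra hcon
    push Not at hcon
    exact hG1 ⟨j, hj, u, hcon⟩
  set n := K * (q * ms d L) with hn
  set W : ℝ := (2 * (4 * d * C' + 3)) ^ d with hW
  have hW0 : 0 < W := by positivity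
  set G := univ.filter (fun x => ε < cc (ed ∘ σ) ω A δ n x) ∩ bal v (d * r) with hGdef
  have hsub : Dmg (ed ∘ σ) ω A δ ε n ∩ box v r ⊆ (A ∩ bal v (d * r + D + ρ + 1)) ∪ G := by
    intro x hx
    rw [mem_inter] at hx
    have hxb := box_sub v r hx.2
    have hxb2 := bal_mono v (show d * r ≤ d * r + D + ρ + 1 by omega) hxb
    have hx1 := hx.1
    unfold Dmg at hx1
    rw [mem_filter] at hx1
    rw [mem_union, mem_inter, hGdef, mem_inter, mem_filter]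
    rcases hx1.2 with h4 | h4
    · exact Or.inl ⟨h4, hxb2⟩
    · exact Or.inr ⟨⟨mem_univ _, h4⟩, hxb⟩
  have himg0 : A.image (gp (ed ∘ σ) ω 0) = A := by simp [gp]
  have hcj : ∀ j < K, (((A.image (gp (ed ∘ σ) ω (j * (q * ms d L)))) ∩
      bal v (d * r + D + ρ + 1)).card : ℝ) ≤ W * (Z : ℝ) ^ (d + 1) * (t ^ (4 * d) / t ^ 9) :=
    fun j hj => count_ball hCNT hd1 hL _ (hG1' j hj) hlam hr₁ ht h9 hr2 hC' hR v
  have hc1 : ((A ∩ bal v (d * r + D + ρ + 1)).card : ℝ) ≤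
      W * (Z : ℝ) ^ (d + 1) * (t ^ (4 * d) / t ^ 9) := by
    have h5 := hcj 0 hK1
    rwa [Nat.zero_mul, himg0] at h5
  have ht49 : t ^ (4 * d) / t ^ 9 ≤ t ^ (4 * d) / t := by
    refine div_le_div_of_nonneg_left (by positivity) ht0 ?_
    calc t = t ^ 1 := (pow_one t).symm
      _ ≤ t ^ 9 := pow_le_pow_right₀ ht (by norm_num)
  have hc1' : ((A ∩ bal v (d * r + D + ρ + 1)).card : ℝ) ≤
      W * (Z : ℝ) ^ (d + 2) * (t ^ (4 * d) / t) := by
    refine hc1.trans (mul_le_mul ?_ ht49 (by positivity) (by positivity))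
    exact mul_le_mul_of_nonneg_left (pow_le_pow_right₀ hZr (by omega)) hW0.le
  have ht8 : t ^ 8 ≤ t ^ (4 * d) / t := by
    rw [le_div_iff₀ ht0, ← pow_succ]
    exact pow_le_pow_right₀ ht (by omega)
  have hc2 : (G.card : ℝ) ≤ 24 * d * (W + 1) / ε * (Z : ℝ) ^ (d + 2) * (t ^ (4 * d) / t) := by
    have h6 : (G.card : ℝ) * ε ≤ 24 * d * (W + 1) * (Z : ℝ) ^ (d + 2) * (t ^ (4 * d) / t) := by
      calc (G.card : ℝ) * ε = ∑ _x ∈ G, ε := by rw [sum_const, nsmul_eq_mul]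
        _ ≤ ∑ x ∈ G, cc (ed ∘ σ) ω A δ n x := by
            refine sum_le_sum fun x hx => ?_
            rw [hGdef, mem_inter, mem_filter] at hx
            exact hx.1.2.le
        _ ≤ ∑ x ∈ bal v (d * r), cc (ed ∘ σ) ω A δ n x :=
            sum_le_sum_of_subset_of_nonneg inter_subset_right
              fun x _ _ => cc_nonneg hB2 _ ω A hδ.le hδ1 n x
        _ ≤ (8 * ρ + 16 * d) * ∑ j ∈ Finset.range K,
              (((A.image (gp (ed ∘ σ) ω (j * (q * ms d L)))) ∩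
                bal v (d * r + D + ρ + 1)).card + τ * A.card) :=
            hCON2 d L hd1 hL σ hσ ω A δ τ q K ρ (d * r) D v hδ h2 h3 hτ hG2 htail
        _ ≤ (8 * ρ + 16 * d) * ∑ _j ∈ Finset.range K,
              (W * (Z : ℝ) ^ (d + 1) * (t ^ (4 * d) / t ^ 9) + 1) := by
            refine mul_le_mul_of_nonneg_left (sum_le_sum fun j hj => ?_) (by positivity)
            exact add_le_add (hcj j (mem_range.1 hj)) hτA
        _ = (8 * ρ + 16 * d) * (t ^ 8 * (W * (Z : ℝ) ^ (d + 1) * (t ^ (4 * d) / t ^ 9) + 1)) := by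
            rw [sum_const, card_range, nsmul_eq_mul, hK]
        _ ≤ (24 * d * Z) * ((W + 1) * (Z : ℝ) ^ (d + 1) * (t ^ (4 * d) / t)) := by
            refine mul_le_mul ?_ ?_ (by positivity) (by positivity)
            · have h7 : (ρ : ℝ) ≤ Z := by exact_mod_cast hρ
              nlinarith
            · have h8 : t ^ 8 * (W * (Z : ℝ) ^ (d + 1) * (t ^ (4 * d) / t ^ 9) + 1) =
                  W * (Z : ℝ) ^ (d + 1) * (t ^ (4 * d) / t) + t ^ 8 := by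
                field_simp
              have h10 : (1 : ℝ) ≤ (Z : ℝ) ^ (d + 1) := one_le_pow₀ hZr
              have h11 : t ^ 8 ≤ (Z : ℝ) ^ (d + 1) * (t ^ (4 * d) / t) := by
                calc t ^ 8 ≤ t ^ (4 * d) / t := ht8
                  _ = 1 * (t ^ (4 * d) / t) := (one_mul _).symm
                  _ ≤ _ := mul_le_mul_of_nonneg_right h10 (by positivity)
              rw [h8]
              linarith
        _ = _ := by ring
    calc (G.card : ℝ) = G.card * ε / ε := by field_simp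
      _ ≤ 24 * d * (W + 1) * (Z : ℝ) ^ (d + 2) * (t ^ (4 * d) / t) / ε :=
          div_le_div_of_nonneg_right h6 hε.le
      _ = _ := by ring
  calc ((Dmg (ed ∘ σ) ω A δ ε n ∩ box v r).card : ℝ) ≤
        (((A ∩ bal v (d * r + D + ρ + 1)) ∪ G).card : ℝ) := by
        exact_mod_cast card_le_card hsub
    _ ≤ ((A ∩ bal v (d * r + D + ρ + 1)).card : ℝ) + G.card := by
        exact_mod_cast card_union_le _ _
    _ ≤ _ := add_le_add hc1' hc2
    _ = _ := by ring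

end pieces

theorem lam_numbers (d h K L : ℕ) (hd : 3 ≤ d) (Cf t : ℝ) (hCf : 1 ≤ Cf) (ht : 1 ≤ t)
    (ht4 : t ^ 4 = Real.sqrt K) (h4 : 4 * Cf ≤ t) (h5 : 2 * (h : ℝ) ≤ t)
    (h6 : 8 * (d : ℝ) * Cf ≤ h) (hKL : K ≤ L ^ 2) :
    ∃ ℓ s : ℕ, (ℓ : ℝ) ≤ t ^ 4 / (2 * Cf) ∧ d * s ≤ ℓ ∧
      t ^ 4 / (4 * d * Cf) ≤ ((s + 1 : ℕ) : ℝ) ∧ s < L ∧
      2 * d * (Nat.sqrt K / h) ≤ ℓ ∧ 1 ≤ Nat.sqrt K / h ∧ 4 * (Nat.sqrt K / h) ≤ L ∧
      t ^ 4 ≤ 2 * h * ((Nat.sqrt K / h : ℕ) : ℝ) ∧ (d : ℝ) * ((Nat.sqrt K / h : ℕ) : ℝ) ≤ t ^ 4 := by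
  have hdr : (3 : ℝ) ≤ d := by exact_mod_cast hd
  have hCf0 : 0 < Cf := by linarith
  have ht0 : 0 < t := by linarith
  have htt : t ≤ t ^ 4 := le_self_pow₀ ht (by norm_num)
  have hh24 : (24 : ℝ) ≤ h := by nlinarith
  have hh0 : 0 < h := by
    have : (0 : ℝ) < h := by linarith
    exact_mod_cast this
  have hh4 : 4 ≤ h := by
    have : (4 : ℝ) ≤ h := by linarith
    exact_mod_cast this
  have hs1 : ((Nat.sqrt K : ℕ) : ℝ) ≤ t ^ 4 := by
    rw [ht4]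
    exact Real.nat_sqrt_le_real_sqrt
  have hs2 : t ^ 4 ≤ (Nat.sqrt K : ℕ) + 1 := by
    rw [ht4]
    exact Real.real_sqrt_le_nat_sqrt_succ
  have hsL : Nat.sqrt K ≤ L := by
    calc Nat.sqrt K ≤ Nat.sqrt (L ^ 2) := Nat.sqrt_le_sqrt hKL
      _ = L := by rw [pow_two, Nat.sqrt_eq]
  have htL : t ^ 4 ≤ L := by
    rw [ht4]
    have h7 : (K : ℝ) ≤ (L : ℝ) ^ 2 := by exact_mod_cast hKL
    calc Real.sqrt K ≤ Real.sqrt ((L : ℝ) ^ 2) := Real.sqrt_le_sqrt h7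
      _ = L := Real.sqrt_sq (Nat.cast_nonneg _)
  obtain ⟨r, hr⟩ : ∃ r, r = Nat.sqrt K / h := ⟨_, rfl⟩
  rw [← hr]
  have hr1 : h * r ≤ Nat.sqrt K := by
    rw [hr]
    exact Nat.mul_div_le _ _
  have hr2 : Nat.sqrt K + 1 ≤ h * (r + 1) := by
    rw [hr]
    exact Nat.lt_mul_div_succ _ hh0
  have hr1' : (h : ℝ) * r ≤ t ^ 4 := by
    have : ((h * r : ℕ) : ℝ) ≤ (Nat.sqrt K : ℕ) := by exact_mod_cast hr1
    push_cast at this
    linarith
  have hr2' : t ^ 4 ≤ (h : ℝ) * (r + 1) := by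
    have : ((Nat.sqrt K + 1 : ℕ) : ℝ) ≤ ((h * (r + 1) : ℕ) : ℝ) := by exact_mod_cast hr2
    push_cast at this
    linarith
  have hr3 : t ^ 4 ≤ 2 * h * (r : ℝ) := by
    nlinarith
  obtain ⟨ℓ, hℓ⟩ : ∃ ℓ : ℕ, ℓ = ⌊t ^ 4 / (2 * Cf)⌋₊ := ⟨_, rfl⟩
  have hℓ1 : (ℓ : ℝ) ≤ t ^ 4 / (2 * Cf) := by
    rw [hℓ]
    exact Nat.floor_le (by positivity)
  have hℓ2 : t ^ 4 / (2 * Cf) < ℓ + 1 := by
    rw [hℓ]
    exact Nat.lt_floor_add_one _
  have hℓ4 : t ^ 4 / (4 * Cf) ≤ ℓ := by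
    have h5 : 1 ≤ t ^ 4 / (4 * Cf) := by
      rw [le_div_iff₀ (by positivity)]
      linarith
    have h6 : t ^ 4 / (2 * Cf) = t ^ 4 / (4 * Cf) + t ^ 4 / (4 * Cf) := by
      field_simp
      ring
    linarith
  refine ⟨ℓ, ℓ / d, hℓ1, Nat.mul_div_le _ _, ?_, ?_, ?_, ?_, ?_, hr3, ?_⟩
  · have h7 : (ℓ : ℝ) < d * ((ℓ / d : ℕ) + 1) := by
      have := Nat.lt_mul_div_succ ℓ (show 0 < d by omega)
      exact_mod_cast this
    have h8 : t ^ 4 / (4 * d * Cf) * d ≤ ℓ := by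
      refine le_trans (le_of_eq ?_) hℓ4
      field_simp
    push_cast
    nlinarith
  · have h7 : (ℓ : ℝ) < L := by
      calc (ℓ : ℝ) ≤ t ^ 4 / (2 * Cf) := hℓ1
        _ ≤ t ^ 4 / 2 := div_le_div_of_nonneg_left (by positivity) (by norm_num) (by linarith)
        _ < t ^ 4 := by
            have : 0 < t ^ 4 := by positivity
            linarith
        _ ≤ L := htL
    have h8 : ℓ < L := by exact_mod_cast h7
    exact lt_of_le_of_lt (Nat.div_le_self _ _) h8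
  · have h7 : ((2 * d * r : ℕ) : ℝ) ≤ ℓ := by
      refine le_trans ?_ hℓ4
      rw [le_div_iff₀ (by positivity)]
      push_cast
      have h8 : 8 * (d : ℝ) * Cf * r ≤ h * r := mul_le_mul_of_nonneg_right h6 (Nat.cast_nonneg _)
      linarith
    exact_mod_cast h7
  · have h7 : (0 : ℝ) < r := by
      by_contra hcon
      push Not at hcon
      have : (0 : ℝ) < t ^ 4 := by positivity
      have h9 : (0 : ℝ) ≤ h := by linarith
      nlinarith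
    exact_mod_cast h7
  · calc 4 * r ≤ h * r := Nat.mul_le_mul_right _ hh4
      _ ≤ Nat.sqrt K := hr1
      _ ≤ L := hsL
  · have h7 : (d : ℝ) ≤ h := by nlinarith
    exact (mul_le_mul_of_nonneg_right h7 (Nat.cast_nonneg _)).trans hr1'

theorem lam_of (hB2 : S_BAS2) (hFRE : S_FRE) (hCON2 : S_CON2) (hNEA : S_NEA) (hENG : S_ENG)
    (hDYA : S_DYA) (hCNT : S_CNT) : S_LAM := by
  classical
  intro d hd
  obtain ⟨Cf, hCf1, hf⟩ := hFRE d (by omega)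
  obtain ⟨CD, hCD1, hD⟩ := hDYA d hd
  have hd3 : (3 : ℝ) ≤ d := by exact_mod_cast hd
  have hd0 : (0 : ℝ) < d := by linarith
  have hCf0 : 0 < Cf := by linarith
  have hCD0 : 0 < CD := by linarith
  obtain ⟨a1, ha1⟩ : ∃ a1 : ℝ, a1 = 4 * d * Cf := ⟨_, rfl⟩
  have ha1p : 0 < a1 := by
    rw [ha1]
    positivity
  obtain ⟨c0, hc0⟩ : ∃ c0 : ℝ, c0 = 1 / (Cf * a1 ^ d) := ⟨_, rfl⟩
  have hc0p : 0 < c0 := by
    rw [hc0]
    positivity
  obtain ⟨ε, hε⟩ : ∃ ε : ℝ, ε = c0 / 8 := ⟨_, rfl⟩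
  have hεp : 0 < ε := by
    rw [hε]
    positivity
  obtain ⟨C', hC'⟩ : ∃ C' : ℝ, C' = Cf * (1 + Cf) + 4 := ⟨_, rfl⟩
  have hC'0 : 0 ≤ C' := by
    rw [hC']
    positivity
  obtain ⟨C3, hC3⟩ : ∃ C3 : ℝ, C3 = 24 * d * ((2 * (4 * d * C' + 3)) ^ d + 1) / ε +
    (2 * (4 * d * C' + 3)) ^ d := ⟨_, rfl⟩
  have hC30 : 0 < C3 := by
    rw [hC3]
    positivity
  obtain ⟨big, hbig⟩ : ∃ big : ℝ, big = 4 * Cf + 8 * d * Cf + 2 ^ d * C3 + 64 * CD * Cf + 2 :=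
    ⟨_, rfl⟩
  have t1 : 0 ≤ 8 * (d : ℝ) * Cf := by positivity
  have t2 : 0 ≤ 2 ^ d * C3 := by positivity
  have t3 : 0 ≤ 64 * CD * Cf := by positivity
  obtain ⟨C, hC⟩ : ∃ C : ℕ, C = ⌈big⌉₊ := ⟨_, rfl⟩
  have hCbig : big ≤ C := by
    rw [hC]
    exact Nat.le_ceil big
  have hC2 : (2 : ℝ) ≤ C := by linarith
  have hC1 : 1 ≤ C := by
    have : (1 : ℝ) ≤ C := by linarith
    exact_mod_cast this
  refine ⟨C, ε, hC1, hεp, ?_⟩
  intro h hCh Z hZ η hη hη2 L K lam r₁ ρ κ₀ _ hlam hρ hLd hL hKL hr₁ hK9 hr1K hbigK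
  have hZr : (1 : ℝ) ≤ Z := by exact_mod_cast hZ
  have hhC : (C : ℝ) ≤ h := by exact_mod_cast hCh
  have hh1 : (1 : ℝ) ≤ h := by linarith
  have hh0 : (0 : ℝ) < h := by linarith
  have hC0 : (0 : ℝ) < C := by linarith
  have hbp : 0 < (C : ℝ) * (Z : ℝ) ^ (d + 2) * (h : ℝ) ^ d / η := by positivity
  have hK1 : 1 ≤ K := by
    have h1 : (0 : ℝ) < K := lt_of_lt_of_le (by positivity) hbigK
    exact_mod_cast h1
  obtain ⟨t, ht, ht8, ht4⟩ := eighth K hK1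
  have ht0 : 0 < t := by linarith
  have htbig : (C : ℝ) * (Z : ℝ) ^ (d + 2) * (h : ℝ) ^ d / η ≤ t := by
    rw [← ht8] at hbigK
    exact (pow_le_pow_iff_left₀ hbp.le ht0.le (by norm_num)).1 hbigK
  have hCh1 : (C : ℝ) * h ≤ t := by
    refine le_trans ?_ htbig
    rw [le_div_iff₀ hη]
    have h1 : (1 : ℝ) ≤ (Z : ℝ) ^ (d + 2) := one_le_pow₀ hZr
    have h2 : (h : ℝ) ≤ (h : ℝ) ^ d := le_self_pow₀ hh1 (by omega)
    calc (C : ℝ) * h * η ≤ C * h * 1 := by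
          refine mul_le_mul_of_nonneg_left ?_ (by positivity)
          linarith
      _ = C * 1 * h := by ring
      _ ≤ C * (Z : ℝ) ^ (d + 2) * (h : ℝ) ^ d := by
          refine mul_le_mul (mul_le_mul_of_nonneg_left h1 hC0.le) h2 hh0.le (by positivity)
  have g1 : 4 * Cf ≤ t := by
    have : (C : ℝ) * 1 ≤ C * h := mul_le_mul_of_nonneg_left hh1 hC0.le
    linarith
  have g2 : 2 * (h : ℝ) ≤ t := by
    have : 2 * (h : ℝ) ≤ C * h := mul_le_mul_of_nonneg_right hC2 hh0.le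
    linarith
  have g3 : 8 * (d : ℝ) * Cf ≤ h := by linarith
  obtain ⟨ℓ, s, e1, e2, e3, e4, e5, e6, e7, e8, e9⟩ :=
    lam_numbers d h K L hd Cf t hCf1 ht ht4 g1 g2 g3 hKL
  obtain ⟨qf, hqf⟩ := hf L hL K
  refine ⟨qf + 4 * d + 2, ?_⟩
  intro q hq σ hσ δ h1 h2 ω A hG r hr Dm hDm
  rw [← hr] at e5 e6 e7 e8 e9
  have hq1 : qf ≤ q := by omega
  have hq4 : 4 * (d : ℝ) ≤ q := by
    have : 4 * d ≤ q := by omega
    exact_mod_cast this
  have hq5 : (2 : ℝ) ≤ q := by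
    have : 2 ≤ q := by omega
    exact_mod_cast this
  obtain ⟨hδ, hδ1, -, hdδ⟩ := Pool.Agent.Q257.LC.num_del δ q 0 d h1 h2 (by linarith) hq4 hq5
  obtain ⟨-, hfb, hfc⟩ := hqf q hq1 σ hσ δ h1 h2
  have hr0 : (0 : ℝ) < r := by exact_mod_cast e6
  -- powers of K
  have hKp : (K : ℝ) ^ (d / 2 : ℝ) = t ^ (4 * d) := by
    rw [← ht8, ← Real.rpow_natCast t 8, ← Real.rpow_mul ht0.le, ← Real.rpow_natCast t (4 * d)]
    congr 1
    push_cast
    ring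
  have hKn : (K : ℝ) ^ (-(d / 2 : ℝ)) = 1 / t ^ (4 * d) := by
    rw [Real.rpow_neg (Nat.cast_nonneg _), hKp, one_div]
  obtain ⟨p, hp⟩ : ∃ p : ℝ, p = 1 / (Cf * t ^ (4 * d)) := ⟨_, rfl⟩
  have hpp0 : 0 < p := by
    rw [hp]
    positivity
  have hpp : ∀ x y : Fin d → ZMod L, td x y ≤ 2 * ℓ →
      p ≤ PP (ed ∘ σ) δ (K * (q * ms d L)) x y := by
    intro x y hxy
    have h3 := hfc K hK1 le_rfl hKL x y (by
      rw [← ht4]
      have h4 : (td x y : ℝ) ≤ 2 * ℓ := by exact_mod_cast hxy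
      have h5 : 2 * (t ^ 4 / (2 * Cf)) = t ^ 4 / Cf := by
        field_simp
      linarith only [h4, h5, e1])
    refine le_trans (le_of_eq ?_) h3
    rw [hKn, hp]
    field_simp
  -- the ball
  obtain ⟨bl, hbl⟩ : ∃ bl : ℝ, bl = (bal (0 : Fin d → ZMod L) ℓ).card := ⟨_, rfl⟩
  have hbl1 : (t ^ 4 / a1) ^ d ≤ bl := by
    have h3 : (((s + 1) ^ d : ℕ) : ℝ) ≤ bl := by
      rw [hbl]
      exact_mod_cast card_bal_ge ℓ s e2 e4
    refine le_trans ?_ h3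
    push_cast
    push_cast at e3
    rw [ha1]
    exact pow_le_pow_left₀ (by positivity) e3 d
  have hpb : c0 ≤ p * bl := by
    calc c0 = p * (t ^ 4 / a1) ^ d := by
          rw [hc0, hp, div_pow, ← pow_mul]
          field_simp
      _ ≤ p * bl := mul_le_mul_of_nonneg_left hbl1 hpp0.le
  have h8 : 8 * ε ≤ p * (bal (0 : Fin d → ZMod L) ℓ).card := by
    rw [← hbl, hε]
    linarith only [hpb]
  -- the tail
  obtain ⟨D, hDd⟩ : ∃ D : ℕ, D = ⌈Cf * t ^ 4 * (Z + Real.log Cf)⌉₊ := ⟨_, rfl⟩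
  have hlog0 : 0 ≤ Real.log Cf := Real.log_nonneg hCf1
  have hD1 : Cf * t ^ 4 * (Z + Real.log Cf) ≤ D := by
    rw [hDd]
    exact Nat.le_ceil _
  have hD2 : (D : ℝ) ≤ Cf * t ^ 4 * (Z + Real.log Cf) + 1 := by
    rw [hDd]
    exact (Nat.ceil_lt_add_one (by positivity)).le
  obtain ⟨τ, hτ⟩ : ∃ τ : ℝ, τ = Cf * Real.exp (-(D / (Cf * Real.sqrt K))) := ⟨_, rfl⟩
  have hτ0 : 0 ≤ τ := by
    rw [hτ]
    positivity
  have hτ1 : τ ≤ Real.exp (-(Z : ℝ)) := by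
    have h3 : (Z : ℝ) + Real.log Cf ≤ D / (Cf * Real.sqrt K) := by
      rw [← ht4, le_div_iff₀ (by positivity)]
      linarith
    rw [hτ]
    calc Cf * Real.exp (-(D / (Cf * Real.sqrt K))) ≤
          Cf * Real.exp (-((Z : ℝ) + Real.log Cf)) :=
          mul_le_mul_of_nonneg_left (Real.exp_le_exp.2 (by linarith)) hCf0.le
      _ = Real.exp (-(Z : ℝ)) := by
          rw [neg_add, Real.exp_add, Real.exp_neg (Real.log Cf), Real.exp_log hCf0]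
          field_simp
  have hτA : τ * A.card ≤ 1 := by
    have h3 : (A.card : ℝ) ≤ Real.exp Z := by
      refine le_trans ?_ hLd
      have h4 : A.card ≤ L ^ d := by
        calc A.card ≤ Fintype.card (Fin d → ZMod L) := card_le_univ _
          _ = L ^ d := Pool.Agent.Q257.LC.card_V
      exact_mod_cast h4
    calc τ * A.card ≤ Real.exp (-(Z : ℝ)) * Real.exp Z :=
          mul_le_mul hτ1 h3 (Nat.cast_nonneg _) (Real.exp_pos _).le
      _ = 1 := by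
          rw [← Real.exp_add]
          simp
  have ht41 : 1 ≤ t ^ 4 := one_le_pow₀ ht
  have hR : ((d * r + D + ρ + 1 : ℕ) : ℝ) ≤ C' * (t ^ 4 * Z) := by
    push_cast
    have h3 : t ^ 4 ≤ t ^ 4 * Z := le_mul_of_one_le_right (by positivity) hZr
    have h4 : (Z : ℝ) ≤ t ^ 4 * Z := le_mul_of_one_le_left (by positivity) ht41
    have h5 : Real.log Cf ≤ Cf * Z := by
      have h6 := Real.log_le_sub_one_of_pos hCf0
      have h7 : Cf ≤ Cf * Z := le_mul_of_one_le_right hCf0.le hZr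
      linarith
    have h6 : Cf * t ^ 4 * (Z + Real.log Cf) ≤ Cf * t ^ 4 * (Z + Cf * Z) :=
      mul_le_mul_of_nonneg_left (by linarith) (by positivity)
    have h7 : (ρ : ℝ) ≤ Z := by exact_mod_cast hρ
    rw [hC']
    linarith
  have h9 : t ^ 9 ≤ (2 * (r₁ : ℝ)) ^ d := by
    have h3 : ((K ^ 9 : ℕ) : ℝ) ≤ (((2 * r₁) ^ (8 * d) : ℕ) : ℝ) := by exact_mod_cast hK9
    push_cast at h3
    rw [← ht8, ← pow_mul, show 8 * 9 = 9 * 8 by norm_num, pow_mul t 9 8, mul_comm 8 d,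
      pow_mul _ d 8] at h3
    exact (pow_le_pow_iff_left₀ (by positivity) (by positivity) (by norm_num)).1 h3
  have hr2 : (r₁ : ℝ) ≤ t ^ 4 * Z := by
    have h3 : ((r₁ ^ 2 : ℕ) : ℝ) ≤ ((K * Z ^ 2 : ℕ) : ℝ) := by exact_mod_cast hr1K
    push_cast at h3
    have h4 : (r₁ : ℝ) ^ 2 ≤ (t ^ 4 * Z) ^ 2 := by
      rw [← ht8] at h3
      calc (r₁ : ℝ) ^ 2 ≤ t ^ 8 * (Z : ℝ) ^ 2 := h3
        _ = (t ^ 4 * Z) ^ 2 := by ring
    exact (pow_le_pow_iff_left₀ (by positivity) (by positivity) (by norm_num)).1 h4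
  have hbox : ∀ v, ((Dm ∩ box v r).card : ℝ) ≤ η * (r : ℝ) ^ d := by
    intro v
    rw [hDm]
    refine (dmg_box hB2 hCON2 hCNT hd hL hσ ω A (D := D) (τ := τ) (C' := C') hδ hdδ h2 hτ0 hεp hZ
      hlam hρ hr₁ ht ht8 hK1 h9 hr2 hG ?_ hτA hC'0 hR v).trans ?_
    · intro k hk y
      rw [hτ]
      exact hfb K hK1 le_rfl k hk D y
    · rw [← hC3]
      have h3 : t ^ (4 * d) ≤ (2 * h * (r : ℝ)) ^ d := by
        rw [pow_mul]
        exact pow_le_pow_left₀ (by positivity) e8 d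
      rw [div_le_iff₀ hη] at htbig
      have h4 : C3 * (Z : ℝ) ^ (d + 2) * (2 * h) ^ d ≤ η * t := by
        have h5 : 2 ^ d * C3 ≤ C := by linarith
        calc C3 * (Z : ℝ) ^ (d + 2) * (2 * (h : ℝ)) ^ d =
              (2 ^ d * C3) * ((Z : ℝ) ^ (d + 2) * (h : ℝ) ^ d) := by
              rw [mul_pow]
              ring
          _ ≤ C * ((Z : ℝ) ^ (d + 2) * (h : ℝ) ^ d) :=
              mul_le_mul_of_nonneg_right h5 (by positivity)
          _ = C * (Z : ℝ) ^ (d + 2) * (h : ℝ) ^ d := by ring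
          _ ≤ η * t := by linarith
      rw [mul_div_assoc', div_le_iff₀ ht0]
      calc C3 * (Z : ℝ) ^ (d + 2) * t ^ (4 * d) ≤
            C3 * (Z : ℝ) ^ (d + 2) * (2 * h * (r : ℝ)) ^ d :=
            mul_le_mul_of_nonneg_left h3 (by positivity)
        _ = (C3 * (Z : ℝ) ^ (d + 2) * (2 * h) ^ d) * (r : ℝ) ^ d := by
            rw [mul_pow]
            ring
        _ ≤ (η * t) * (r : ℝ) ^ d := mul_le_mul_of_nonneg_right h4 (by positivity)
        _ = η * (r : ℝ) ^ d * t := by ring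
  refine ⟨e6, e7, ?_, hbox, ?_⟩
  · rw [← ht4]
    exact e8
  · intro z w hw hw1
    have hDmc : ∀ x, x ∉ Dm → x ∉ A ∧ cc (ed ∘ σ) ω A δ (K * (q * ms d L)) x ≤ ε := by
      intro x hx
      rw [hDm] at hx
      unfold Dmg at hx
      rw [mem_filter, not_and] at hx
      have h3 := hx (mem_univ _)
      rw [not_or] at h3
      exact ⟨h3.1, not_lt.1 h3.2⟩
    have hAD : ∀ a ∈ A, a ∈ Dm := by
      intro a ha
      by_contra h3
      exact (hDmc a h3).1 ha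
    have hhalf : ∀ v, 2 * (Dm ∩ box v r).card ≤ r ^ d := by
      intro v
      have h3 := hbox v
      have h4 : η * (r : ℝ) ^ d ≤ 1 / 2 * (r : ℝ) ^ d :=
        mul_le_mul_of_nonneg_right hη2 (by positivity)
      have h5 : (2 : ℝ) * (Dm ∩ box v r).card ≤ (r : ℝ) ^ d := by linarith
      exact_mod_cast h5
    obtain ⟨Λ, hΛ⟩ : ∃ Λ : ℝ, Λ = CD / (r : ℝ) ^ (2 * d) * (16 / p) := ⟨_, rfl⟩
    have hΛ0 : 0 ≤ Λ := by
      rw [hΛ]
      positivity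
    have hE := hENG (Fin d → ZMod L) (ed ∘ σ) ω A (K * (q * ms d L)) δ w Λ (phz r Dm z) hδ.le hδ1
      hw hw1 hΛ0 (by
        intro a ha
        have h3 : ∀ z' : Fin d → ZMod L, chi r Dm z' a = 0 := by
          intro z'
          unfold chi
          rw [if_neg]
          intro h4
          exact (mem_sdiff.1 h4).2 (hAD a ha)
        unfold phz
        simp only [h3]
        simp) (by
        intro f
        have h3 := hD L r e6 e7 Dm hhalf f z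
        have h4 := (hNEA d L (by omega) hL σ hσ ω A Dm δ ε p (K * (q * ms d L)) ℓ hδ.le hδ1 hpp0
          hεp.le hpp hDmc h8 f).2
        set E : ℝ := ∑ x, ∑ y, (if x ∉ Dm ∧ y ∉ Dm ∧ td x y ≤ ℓ then (f x - f y) ^ 2 else 0)
          with hEd
        set E' : ℝ := ∑ x, ∑ y, (if x ∉ Dm ∧ y ∉ Dm ∧ td x y ≤ 2 * d * r then
          (f x - f y) ^ 2 else 0) with hEd'
        have hEE : E' ≤ E := by
          refine sum_le_sum fun x _ => sum_le_sum fun y _ => ?_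
          by_cases h9 : x ∉ Dm ∧ y ∉ Dm ∧ td x y ≤ 2 * d * r
          · rw [if_pos h9, if_pos ⟨h9.1, h9.2.1, h9.2.2.trans e5⟩]
          · rw [if_neg h9]
            split_ifs
            · exact sq_nonneg _
            · exact le_rfl
        set Q : ℝ := ∑ x, ∑ y, TT (ed ∘ σ) ω A δ (K * (q * ms d L)) x y * (f x - f y) ^ 2 with hQ
        have h5 : E ≤ 16 / p * Q := by
          rw [div_mul_eq_mul_div, le_div_iff₀ hpp0]
          linarith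
        calc (phz r Dm z ⬝ᵥ f) ^ 2 ≤ CD / (r : ℝ) ^ (2 * d) * E' := h3
          _ ≤ CD / (r : ℝ) ^ (2 * d) * (16 / p * Q) :=
              mul_le_mul_of_nonneg_left (hEE.trans h5) (by positivity)
          _ = Λ * Q := by
              rw [hΛ]
              ring)
    refine hE.trans ?_
    rw [hKp, hΛ, hp]
    have h3 : 4 * (CD / (r : ℝ) ^ (2 * d) * (16 / (1 / (Cf * t ^ (4 * d))))) =
        (64 * CD * Cf) * t ^ (4 * d) / (r : ℝ) ^ (2 * d) := by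
      field_simp
      ring
    rw [h3]
    refine div_le_div_of_nonneg_right ?_ (by positivity)
    exact mul_le_mul_of_nonneg_right (by linarith) (by positivity)

/-- `S_LAM` from the three statements `S_ENG`, `S_DYA`, `S_CNT`. -/
theorem lam (hENG : S_ENG) (hDYA : S_DYA) (hCNT : S_CNT) : S_LAM :=
  lam_of Pool.Agent.Q68.LC.bas2 Pool.Agent.Q257.LC.fre
    (Pool.Agent.Q151.LC.con2 Pool.Agent.Q187.LC.Tch.tch) Pool.Agent.Q151.LC.nea hENG hDYA hCNT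

end Run7.h576.LC
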