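import Pool.Agent.Run7.h565.LC.Stm8
import Pool.Agent.Y661.PD.AllA

/-!
# Project LC, piece CLB: fractions of a box and of the torus for `t ≥ L ^ 2`
-/

set_option autoImplicit false

namespace Run7.h576.LC.Clb

open Finset Equiv Q292.LC Run7.h565.LC Filter Topology
open Pool.Agent.TH268.PD (top frac Cyc cyOf pdm)
open Pool.Agent.Y998.LP (bfrac)
open Pool.Agent.Y998.ST (stirExp stirLaw nnRate exp_mono exp_const nn_nonneg)
open Pool.Agent.Y661.PD (vis er vis_all)

/-- visits counted over an invariant set -/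
theorem sum_vis {V : Type} [Fintype V] [DecidableEq V] (Q : Finset V) (K : ℕ) (g : Perm V)
    (P : V → Prop) [DecidablePred P] (hP : ∀ z, P (g z) ↔ P z) :
    ∑ z, (if P z then (vis Q K g z : ℝ) else 0) = K * (∑ z ∈ Q, if P z then (1 : ℝ) else 0) := by
  have hpow : ∀ (n : ℕ) z, P ((g ^ n) z) ↔ P z := by
    intro n
    induction n with
    | zero => intro z; simp
    | succ n ih =>
      intro z
      rw [pow_succ', Perm.mul_apply, hP, ih]
  have h1 : ∀ z, (if P z then (vis Q K g z : ℝ) else 0) =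
      ∑ i : Fin K, (if (g ^ ((i : ℕ) + 1)) z ∈ Q then
        (if P ((g ^ ((i : ℕ) + 1)) z) then (1 : ℝ) else 0) else 0) := by
    intro z
    unfold vis
    by_cases h : P z
    · rw [if_pos h, Finset.card_filter, Nat.cast_sum]
      refine Finset.sum_congr rfl fun i _ => ?_
      rw [if_pos ((hpow _ z).2 h)]
      split_ifs
      · exact Nat.cast_one
      · exact Nat.cast_zero
    · rw [if_neg h]
      symm
      refine Finset.sum_eq_zero fun i _ => ?_
      rw [if_neg (fun h' => h ((hpow _ z).1 h'))]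
      simp
  rw [Finset.sum_congr rfl fun z _ => h1 z, Finset.sum_comm]
  have h2 : ∀ i : Fin K, ∑ z, (if (g ^ ((i : ℕ) + 1)) z ∈ Q then
        (if P ((g ^ ((i : ℕ) + 1)) z) then (1 : ℝ) else 0) else 0) =
      ∑ z ∈ Q, if P z then (1 : ℝ) else 0 := by
    intro i
    rw [Equiv.sum_comp (g ^ ((i : ℕ) + 1))
      (fun w => if w ∈ Q then (if P w then (1 : ℝ) else 0) else 0), Finset.sum_ite_mem,
      Finset.univ_inter]
  rw [Finset.sum_congr rfl fun i _ => h2 i, Finset.sum_const, Finset.card_univ, Fintype.card_fin,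
    nsmul_eq_mul]

theorem det {V : Type} [Fintype V] [DecidableEq V] [Nonempty V] (Q : Finset V) (hQ : Q.Nonempty)
    (K : ℕ) (hK : 0 < K) (g : Perm V) (γ : Cyc g) :
    |bfrac Q g γ - frac g γ| ≤ (∑ z, max 0 (1 - (Fintype.card V : ℝ) / (K * Q.card) * vis Q K g z)) /
      Fintype.card V := by
  classical
  obtain ⟨N, hN⟩ : ∃ N : ℝ, N = Fintype.card V := ⟨_, rfl⟩
  have hN0 : 0 < N := by
    rw [hN]
    exact_mod_cast Fintype.card_pos
  have hQ0 : (0 : ℝ) < Q.card := by exact_mod_cast hQ.card_pos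
  have hK0 : (0 : ℝ) < K := by exact_mod_cast hK
  rw [← hN]
  set u : V → ℝ := fun z => 1 - N / (K * Q.card) * vis Q K g z with hu
  have hinv : ∀ z, cyOf g (g z) = γ ↔ cyOf g z = γ := by
    intro z
    have : cyOf g (g z) = cyOf g z := (cyOf_eq g _ _).2 (Perm.sameCycle_apply_left.2 (Perm.SameCycle.refl g z))
    rw [this]
  have h1 := sum_vis Q K g (fun z => cyOf g z = γ) hinv
  have h2 := sum_vis Q K g (fun _ => True) (fun _ => Iff.rfl)
  simp only [if_true] at h2
  have hfr : ∑ z, (if cyOf g z = γ then (1 : ℝ) else 0) = N * frac g γ := by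
    rw [frac_bfrac, bfrac_sum, Finset.card_univ, ← hN]
    field_simp
  have hbf : ∑ z ∈ Q, (if cyOf g z = γ then (1 : ℝ) else 0) = Q.card * bfrac Q g γ := by
    rw [bfrac_sum]
    field_simp
  have e1 : ∑ z, (if cyOf g z = γ then u z else 0) = N * (frac g γ - bfrac Q g γ) := by
    have e2 : ∀ z, (if cyOf g z = γ then u z else 0) = (if cyOf g z = γ then (1 : ℝ) else 0) -
        N / (K * Q.card) * (if cyOf g z = γ then (vis Q K g z : ℝ) else 0) := by
      intro z
      split_ifs <;> simp [hu]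
    rw [Finset.sum_congr rfl fun z _ => e2 z, Finset.sum_sub_distrib, ← Finset.mul_sum, h1, hbf,
      hfr]
    field_simp
  have e3 : ∑ z, u z = 0 := by
    simp only [hu]
    rw [Finset.sum_sub_distrib, ← Finset.mul_sum, h2]
    simp only [Finset.sum_const, nsmul_eq_mul, mul_one, Finset.card_univ]
    rw [← hN]
    field_simp
    ring
  have e4 : ∑ z, (if cyOf g z = γ then u z else 0) ≤ ∑ z, max 0 (u z) := by
    refine Finset.sum_le_sum fun z _ => ?_
    split_ifs
    · exact le_max_right _ _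
    · exact le_max_left _ _
  have e5 : -∑ z, (if cyOf g z = γ then u z else 0) ≤ ∑ z, max 0 (u z) := by
    have e6 : -∑ z, (if cyOf g z = γ then u z else 0) = ∑ z, (if cyOf g z = γ then 0 else u z) := by
      have e7 : ∑ z, (if cyOf g z = γ then u z else 0) + ∑ z, (if cyOf g z = γ then 0 else u z) =
          ∑ z, u z := by
        rw [← Finset.sum_add_distrib]
        refine Finset.sum_congr rfl fun z _ => ?_
        split_ifs <;> simp
      rw [e3] at e7
      linarith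
    rw [e6]
    refine Finset.sum_le_sum fun z _ => ?_
    split_ifs
    · exact le_max_left _ _
    · exact le_max_right _ _
  rw [le_div_iff₀ hN0]
  have e8 : |bfrac Q g γ - frac g γ| * N = |∑ z, (if cyOf g z = γ then u z else 0)| := by
    rw [e1, abs_mul, abs_of_pos hN0, abs_sub_comm]
    ring
  rw [e8]
  exact abs_le.2 ⟨by linarith, e4⟩

theorem box_full {d L : ℕ} [NeZero L] (z : Fin d → ZMod L) : box z L = Finset.univ := by
  unfold Q292.LC.box
  rw [Finset.filter_eq_self]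
  intro x _ i
  exact ZMod.val_lt _

theorem Dm_full {d L : ℕ} [NeZero L] (z : Fin d → ZMod L) (g : Perm (Fin d → ZMod L)) :
    Dm L z g ≤ 0 := by
  unfold Dm
  refine Real.iSup_le (fun γ => ?_) le_rfl
  rw [box_full, frac_bfrac, sub_self, abs_zero]

/-- the choice of `K` -/
theorem exK (d h : ℕ) (η C : ℝ) (hη : 0 < η) : ∃ K : ℕ, 0 < K ∧
    C * (Real.sqrt ((2 * h) ^ d / K) + Real.sqrt (1 / Real.sqrt K) + Real.sqrt (1 / K)) ≤ η / 2 := by
  have t0 : Tendsto (fun K : ℕ => (K : ℝ)) atTop atTop := tendsto_natCast_atTop_atTop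
  have t1 : Tendsto (fun K : ℕ => Real.sqrt ((2 * (h : ℝ)) ^ d / K)) atTop (𝓝 0) := by
    have := (Real.continuous_sqrt.tendsto 0).comp (t0.const_div_atTop ((2 * (h : ℝ)) ^ d))
    rwa [Real.sqrt_zero] at this
  have t2 : Tendsto (fun K : ℕ => Real.sqrt (1 / Real.sqrt K)) atTop (𝓝 0) := by
    have := (Real.continuous_sqrt.tendsto 0).comp
      ((Real.tendsto_sqrt_atTop.comp t0).const_div_atTop (1 : ℝ))
    rwa [Real.sqrt_zero] at this
  have t3 : Tendsto (fun K : ℕ => Real.sqrt (1 / (K : ℝ))) atTop (𝓝 0) := by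
    have := (Real.continuous_sqrt.tendsto 0).comp (t0.const_div_atTop (1 : ℝ))
    rwa [Real.sqrt_zero] at this
  have t4 := ((t1.add t2).add t3).const_mul C
  simp only [add_zero, mul_zero] at t4
  have h5 := (t4.eventually_lt_const (show 0 < η / 2 by positivity)).and (eventually_gt_atTop 0)
  obtain ⟨K, hK, hK0⟩ := h5.exists
  exact ⟨K, hK0, hK.le⟩

theorem clb : S_CLB := by
  intro d hd h η hη
  obtain ⟨C, hC, hV⟩ := vis_all d hd
  obtain ⟨K, hK, hK1⟩ := exK d h η C hη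
  obtain ⟨L₁, hL₁⟩ := exists_nat_gt (C * (K + (K : ℝ) ^ 2 * (h : ℝ) ^ 2) * 2 / η)
  refine ⟨max 3 (max (h ^ 2) (max (2 * h) L₁)), fun L _ hL t ht => ?_⟩
  have hL3 : 3 ≤ L := (le_max_left _ _).trans hL
  have hLh : h ^ 2 ≤ L := ((le_max_left _ _).trans (le_max_right _ _)).trans hL
  have hL2h : 2 * h ≤ L :=
    ((le_max_left _ _).trans ((le_max_right _ _).trans (le_max_right _ _))).trans hL
  have hLL1 : L₁ ≤ L :=
    ((le_max_right _ _).trans ((le_max_right _ _).trans (le_max_right _ _))).trans hL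
  have hL0 : (0 : ℝ) < L := by exact_mod_cast (show 0 < L by omega)
  have hLr1 : (1 : ℝ) ≤ L := by exact_mod_cast (show 1 ≤ L by omega)
  have ht1 : 1 ≤ t := by nlinarith
  have ht0 : 0 < t := by linarith
  have hsL : (L : ℝ) ≤ Real.sqrt t := Real.le_sqrt_of_sq_le ht
  have hs0 : 0 < Real.sqrt t := by linarith
  by_cases hc : (L : ℝ) * h ≤ Real.sqrt t
  · refine ⟨L, ?_, le_rfl, hc, fun z => ?_⟩
    · omega
    · calc stirExp (nnRate d L) t (fun g => Dm L z g) ≤ stirExp (nnRate d L) t (fun _ => 0) :=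
            exp_mono nn_nonneg ht0.le fun g => Dm_full z g
        _ = 0 := exp_const _ _ _
        _ ≤ η := hη.le
  push Not at hc
  have hh0 : 0 < h := by
    rcases Nat.eq_zero_or_pos h with h0 | h0
    · rw [h0] at hc
      simp only [Nat.cast_zero, mul_zero] at hc
      linarith
    · exact h0
  have hhr : (0 : ℝ) < h := by exact_mod_cast hh0
  obtain ⟨r, hr⟩ : ∃ r : ℕ, r = L / h := ⟨_, rfl⟩
  have hrL : r ≤ L := by rw [hr]; exact Nat.div_le_self _ _
  have hrh : h ≤ r := by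
    rw [hr, Nat.le_div_iff_mul_le hh0, ← sq]
    exact hLh
  have hr1 : 0 < r := by omega
  have hrh2 : r * h ≤ L := by rw [hr]; exact Nat.div_mul_le_self _ _
  have hrlow : (L : ℝ) / (2 * h) ≤ r := by
    have h1 : L < (r + 1) * h := by
      rw [hr]
      have := Nat.div_add_mod L h
      have h9 := Nat.mod_lt L hh0
      nlinarith
    have h2 : (L : ℝ) < (r + 1) * h := by exact_mod_cast h1
    have h3 : (2 * h : ℝ) ≤ L := by exact_mod_cast hL2h
    rw [div_le_iff₀ (by positivity)]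
    nlinarith
  have hr0 : (0 : ℝ) < r := by exact_mod_cast hr1
  refine ⟨r, hrh, hrL, ?_, fun z => ?_⟩
  · have : (r : ℝ) * h ≤ L := by exact_mod_cast hrh2
    linarith
  have hcard : (Fintype.card (Fin d → ZMod L) : ℝ) = (L : ℝ) ^ d := by
    rw [Fintype.card_fun, ZMod.card, Fintype.card_fin]
    push_cast
    rfl
  have hbc : ((box z r).card : ℝ) = (r : ℝ) ^ d := by
    rw [Pool.Agent.Q187.LC.Nas.card_box z r hrL]
    push_cast
    rfl
  have hne : (box z r).Nonempty := by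
    rw [← Finset.card_pos, Pool.Agent.Q187.LC.Nas.card_box z r hrL]
    positivity
  have hE := hV L hL3 t ht1 K (box z r) hK hne
  have hDm : ∀ g : Perm (Fin d → ZMod L), Dm r z g ≤ 2 / (L : ℝ) ^ d *
      ∑ z', max 0 (1 - (L : ℝ) ^ d / (K * (box z r).card) * vis (box z r) K g z') := by
    intro g
    have h0 : 0 ≤ ∑ z', max 0 (1 - (L : ℝ) ^ d / (K * (box z r).card) * vis (box z r) K g z') :=
      Finset.sum_nonneg fun _ _ => le_max_left _ _
    have hLd : (0 : ℝ) < (L : ℝ) ^ d := by positivity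
    unfold Dm
    refine Real.iSup_le (fun γ => ?_) (by positivity)
    refine (det (box z r) hne K hK g γ).trans ?_
    rw [hcard, div_mul_eq_mul_div]
    refine div_le_div_of_nonneg_right ?_ hLd.le
    linarith
  refine (exp_mono nn_nonneg ht0.le hDm).trans (hE.trans ?_)
  rw [hbc]
  -- the error
  have hKr : (0 : ℝ) < K := by exact_mod_cast hK
  have hLd : (0 : ℝ) < (L : ℝ) ^ d := by positivity
  have hd3 : (3 : ℝ) ≤ d := by exact_mod_cast hd
  have a1 : (L : ℝ) ^ d / (K * (r : ℝ) ^ d) ≤ (2 * h) ^ d / K := by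
    rw [div_le_div_iff₀ (by positivity) hKr]
    have b1 : (L : ℝ) ≤ 2 * h * r := by
      rw [div_le_iff₀ (by positivity)] at hrlow
      linarith
    have b2 : (L : ℝ) ^ d ≤ (2 * h) ^ d * (r : ℝ) ^ d := by
      rw [← mul_pow]
      exact pow_le_pow_left₀ hL0.le b1 d
    nlinarith
  have a2 : L / Real.sqrt (t * K) ≤ 1 / Real.sqrt K := by
    rw [Real.sqrt_mul ht0.le, div_le_div_iff₀ (by positivity) (by positivity)]
    nlinarith [Real.sqrt_nonneg (K : ℝ)]
  have a3 : (L : ℝ) ^ d * t ^ (-((d : ℝ) / 2)) / K ≤ 1 / K := by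
    refine div_le_div_of_nonneg_right ?_ hKr.le
    have b1 : (L : ℝ) ^ d ≤ t ^ ((d : ℝ) / 2) := by
      calc (L : ℝ) ^ d = ((L : ℝ) ^ 2) ^ ((d : ℝ) / 2) := by
            rw [← Real.rpow_natCast (L : ℝ) 2, ← Real.rpow_mul hL0.le, ← Real.rpow_natCast]
            congr 1
            push_cast
            ring
        _ ≤ t ^ ((d : ℝ) / 2) := Real.rpow_le_rpow (by positivity) ht (by positivity)
    rw [Real.rpow_neg ht0.le, ← div_eq_mul_inv]
    exact div_le_one_of_le₀ b1 (by positivity)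
  have a4 : K * t ^ (1 - (d : ℝ) / 2) ≤ K / L := by
    rw [div_eq_mul_inv]
    refine mul_le_mul_of_nonneg_left ?_ hKr.le
    calc t ^ (1 - (d : ℝ) / 2) ≤ t ^ (-(1 / 2) : ℝ) :=
          Real.rpow_le_rpow_of_exponent_le ht1 (by linarith)
      _ = (Real.sqrt t)⁻¹ := by rw [Real.rpow_neg ht0.le, Real.sqrt_eq_rpow]
      _ ≤ (L : ℝ)⁻¹ := inv_anti₀ hL0 hsL
  have a5 : (K : ℝ) ^ 2 * t / (L : ℝ) ^ d ≤ (K : ℝ) ^ 2 * (h : ℝ) ^ 2 / L := by
    rw [div_le_div_iff₀ hLd hL0]
    have b1 : t ≤ (L : ℝ) ^ 2 * (h : ℝ) ^ 2 := by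
      have := Real.sq_sqrt ht0.le
      nlinarith
    have b2 : (L : ℝ) ^ 3 ≤ (L : ℝ) ^ d := pow_le_pow_right₀ hLr1 hd
    have b3 : t * L ≤ (h : ℝ) ^ 2 * (L : ℝ) ^ d := by
      calc t * L ≤ (L : ℝ) ^ 2 * (h : ℝ) ^ 2 * L := mul_le_mul_of_nonneg_right b1 hL0.le
        _ = (h : ℝ) ^ 2 * (L : ℝ) ^ 3 := by ring
        _ ≤ _ := mul_le_mul_of_nonneg_left b2 (by positivity)
    nlinarith [sq_nonneg (K : ℝ)]
  have a6 : C * (K / L + (K : ℝ) ^ 2 * (h : ℝ) ^ 2 / L) ≤ η / 2 := by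
    have b1 : C * (K + (K : ℝ) ^ 2 * (h : ℝ) ^ 2) * 2 / η < L := lt_of_lt_of_le hL₁ (by exact_mod_cast hLL1)
    rw [div_lt_iff₀ hη] at b1
    rw [← add_div, mul_div_assoc', div_le_iff₀ hL0]
    linarith
  have a7 : er d L K t ((r : ℝ) ^ d) ≤ Real.sqrt ((2 * h) ^ d / K) +
      Real.sqrt (1 / Real.sqrt K) + Real.sqrt (1 / K) +
      (K / L + (K : ℝ) ^ 2 * (h : ℝ) ^ 2 / L) := by
    unfold er
    exact add_le_add (add_le_add (add_le_add (Real.sqrt_le_sqrt a1) (Real.sqrt_le_sqrt a2))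
      (Real.sqrt_le_sqrt a3)) (add_le_add a4 a5)
  calc C * er d L K t ((r : ℝ) ^ d) ≤ C * (Real.sqrt ((2 * h) ^ d / K) +
      Real.sqrt (1 / Real.sqrt K) + Real.sqrt (1 / K) +
      (K / L + (K : ℝ) ^ 2 * (h : ℝ) ^ 2 / L)) := mul_le_mul_of_nonneg_left a7 hC.le
    _ = C * (Real.sqrt ((2 * h) ^ d / K) + Real.sqrt (1 / Real.sqrt K) + Real.sqrt (1 / K)) +
      C * (K / L + (K : ℝ) ^ 2 * (h : ℝ) ^ 2 / L) := by ring
    _ ≤ η := by linarith

end Run7.h576.LC.Clb
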